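import Mathlib
import Pool.Agent.N254.SQ.Fin3
import Pool.Agent.N254.SQ.Key
import Pool.Agent.N254.SQ.IdlR
import Pool.Agent.N254.SQ.RestrR
import Pool.Agent.N254.SQ.LocDefs2

set_option autoImplicit false

/-!
# Common lemmas for the reductions to smooth hypersurfaces: points of projective varieties

Helper file for MP_7ede32_ag, MP_2ae8fe_ag, MP_e52354_nt, MP_1e3e9c_ag.
-/

namespace Run7.h972.LS

open MvPolynomial
open Pool.Agent.W602.GT (SubVar GeneralType)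
open Pool.Agent.N254.SQ

/-- the dimension is at most the dimension of the projective space -/
theorem dim_le {n : ℕ} {L : Type} [Field L] [Algebra ℂ L] {w : ℕ} {y : Fin (n + 1) → L}
    (hgen : Pool.Agent.W602.GT.coords ℂ y = ⊤) (hdim : Algebra.trdeg ℂ L = w) (hy : y ≠ 0) :
    w ≤ n := by
  obtain ⟨a, ha⟩ : ∃ a, y a ≠ 0 := by
    by_contra hcon
    push Not at hcon
    exact hy (funext hcon)
  set x' : Fin (n + 1) → L := fun j => y j / y a with hx'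
  have h2 : IntermediateField.adjoin ℂ (Set.range x') = ⊤ := by
    rw [eq_top_iff, ← hgen]
    apply IntermediateField.adjoin_le_iff.2
    rintro _ ⟨i, j, hj, rfl⟩
    have h3 : ∀ k, x' k ∈ IntermediateField.adjoin ℂ (Set.range x') := fun k =>
      IntermediateField.subset_adjoin ℂ _ ⟨k, rfl⟩
    have h4 : y i / y j = x' i / x' j := by
      rw [hx']
      simp only
      rw [div_div_div_cancel_right₀ ha]
    rw [h4]
    exact div_mem (h3 i) (h3 j)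
  have h3 := t_td ℂ L n n x' a x' (by rw [hx']; exact div_self ha)
    (fun b => ⟨X b, by rw [aeval_X]⟩)
  rw [← trdeg_field, h2] at h3
  have h4 := (IntermediateField.topEquiv (F := ℂ) (E := L)).trdeg_eq
  rw [h4, hdim] at h3
  exact_mod_cast h3

/-- Nullstellensatz: a form vanishing at the complex zeros vanishes at all zeros -/
theorem null {n : ℕ} {S : Set (MvPolynomial (Fin (n + 1)) ℂ)} {G : MvPolynomial (Fin (n + 1)) ℂ}
    (h : ∀ x : Fin (n + 1) → ℂ, (∀ p ∈ S, eval x p = 0) → eval x G = 0) (Ω : Type) [Field Ω]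
    [Algebra ℂ Ω] (x : Fin (n + 1) → Ω) (hx : ∀ p ∈ S, aeval x p = 0) : aeval x G = 0 := by
  have h1 : G ∈ vanishingIdeal ℂ (zeroLocus ℂ (Ideal.span S)) := by
    intro x hx
    exact h x fun p hp => hx p (Ideal.subset_span hp)
  rw [vanishingIdeal_zeroLocus_eq_radical] at h1
  obtain ⟨r, hr⟩ := h1
  have h2 : Ideal.span S ≤ RingHom.ker (aeval x : MvPolynomial (Fin (n + 1)) ℂ →ₐ[ℂ] Ω) := by
    rw [Ideal.span_le]
    exact fun p hp => hx p hp
  have h3 : aeval x (G ^ r) = 0 := h2 hr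
  rw [map_pow] at h3
  exact eq_zero_of_pow_eq_zero h3

/-- powers -/
theorem idl_pow {n : ℕ} {I : MvPolynomial (Fin (n + 1)) ℂ → Prop} (hI : Idl I)
    {F : MvPolynomial (Fin (n + 1)) ℂ} (hF : IsForm F) (k : ℕ) (hk : 1 ≤ k) :
    I (F ^ k) ↔ I F := by
  constructor
  · exact hI.rad F k hF
  · intro h
    obtain ⟨j, rfl⟩ : ∃ j, k = 1 + j := ⟨k - 1, by omega⟩
    obtain ⟨e, he⟩ := hF
    rw [pow_add, pow_one]
    exact hI.mul F (F ^ j) ⟨e, he⟩ ⟨_, he.pow j⟩ h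

/-- from `A = 0` to `V(S)` -/
theorem descend {n N d : ℕ} {m : Fin (N + 1) → Fin (n + 1) → ℕ}
    {S : Set (MvPolynomial (Fin (n + 1)) ℂ)} {A : MvPolynomial (Fin (N + 1)) ℂ}
    (hg : Good n N d m S A) {I I' : MvPolynomial (Fin (n + 1)) ℂ → Prop}
    {J J' : MvPolynomial (Fin (N + 1)) ℂ → Prop} (hI : Idl I) (hI' : Idl I')
    (h1 : ∀ G, IsForm G → (J G ↔ I (pull m G))) (h2 : ∀ G, IsForm G → (J' G ↔ I' (pull m G)))
    (h : ∀ G, IsForm G → (J G ↔ J' G)) {F : MvPolynomial (Fin (n + 1)) ℂ} (hF : IsForm F) :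
    I F ↔ I' F := by
  obtain ⟨e, he⟩ := hF
  obtain ⟨G, hG, hGF⟩ := t_versurj n N d m hg.mon e (F ^ d) (by
    rw [mul_comm]
    exact he.pow d)
  have hGF' : pull m G = F ^ d := hGF
  rw [← idl_pow hI ⟨e, he⟩ d hg.deg, ← idl_pow hI' ⟨e, he⟩ d hg.deg, ← hGF', ← h1 G ⟨e, hG⟩,
    ← h2 G ⟨e, hG⟩, h G ⟨e, hG⟩]

/-- a bound `≥ 3` for the degrees of finitely many forms -/
theorem deg_bound {K : Type} [Field K] {n : ℕ} (T : Finset (MvPolynomial (Fin (n + 1)) K))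
    (hT : ∀ p ∈ T, ∃ e, p.IsHomogeneous e) : ∃ d, 3 ≤ d ∧ ∀ p ∈ T, ∃ e ≤ d, p.IsHomogeneous e := by
  choose! e he using hT
  refine ⟨max 3 (T.sup e), le_max_left _ _, fun p hp => ⟨e p, ?_, he p hp⟩⟩
  exact le_trans (Finset.le_sup (f := e) hp) (le_max_right _ _)

/-- smooth hypersurfaces through all projective varieties -/
def Cons (D₁ : ℕ → ℕ) : Prop :=
  ∀ n d : ℕ, 1 ≤ n → 3 ≤ d → ∃ (N : ℕ) (m : Fin (N + 1) → Fin (n + 1) → ℕ),
    Monomials n N d m ∧ ∀ D, D₁ N ≤ D → ∀ (K : Type) [Field K] [CharZero K] (σ : K →+* ℂ)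
      (S : Set (MvPolynomial (Fin (n + 1)) K)), (∀ p ∈ S, ∃ e ≤ d, p.IsHomogeneous e) →
      ∃ Q : Fin (N * (2 * N + 1)) → MvPolynomial (Fin (N + 1)) K,
        (∀ t, (Q t).IsHomogeneous 2) ∧ SmoothOver (powerFormOver D Q) ∧
        Good n N d m (map σ '' S) (map σ (powerFormOver D Q))

theorem t_cons : ∃ D₁ : ℕ → ℕ, Cons D₁ := by
  obtain ⟨D₁, H⟩ := main5 leaves4 t_ext
  refine ⟨D₁, fun n d hn hd => ?_⟩
  obtain ⟨N, m, hm, -, H2⟩ := H n d hn hd
  refine ⟨N, m, ⟨hm.deg, hm.inj, hm.surj⟩, fun D hD K _ _ σ S hS => ?_⟩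
  obtain ⟨Q, hQ, hsm, -, hg⟩ := H2 D hD K σ S hS
  refine ⟨Q, hQ, ?_, hg⟩
  intro Ω _ τ y hy
  obtain ⟨j, hj⟩ := hsm Ω τ y hy
  refine ⟨j, ?_⟩
  rw [pderiv_map, eval_map] at hj
  exact hj

/-- the case of the complex numbers -/
theorem cons_complex {D₁ : ℕ → ℕ} (H : Cons D₁) (n d : ℕ) (hn : 1 ≤ n) (hd : 3 ≤ d) :
    ∃ (N : ℕ) (m : Fin (N + 1) → Fin (n + 1) → ℕ),
      Monomials n N d m ∧ ∀ D, D₁ N ≤ D →
        ∀ S : Set (MvPolynomial (Fin (n + 1)) ℂ), (∀ p ∈ S, ∃ e ≤ d, p.IsHomogeneous e) →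
        ∃ Q : Fin (N * (2 * N + 1)) → MvPolynomial (Fin (N + 1)) ℂ,
          (∀ t, (Q t).IsHomogeneous 2) ∧ SmoothForm (powerForm D Q) ∧
          Good n N d m S (powerForm D Q) := by
  obtain ⟨N, m, hm, H2⟩ := H n d hn hd
  refine ⟨N, m, hm, fun D hD S hS => ?_⟩
  obtain ⟨Q, hQ, hsm, hg⟩ := H2 D hD ℂ (RingHom.id ℂ) S hS
  have hid : (map (RingHom.id ℂ) '' S : Set (MvPolynomial (Fin (n + 1)) ℂ)) = S := by
    ext p
    simp [map_id]
  rw [hid, map_id] at hg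
  exact ⟨Q, hQ, fun y hy => hsm ℂ (RingHom.id ℂ) y hy, hg⟩

/-- subvarieties of a hypersurface, with the two index types -/
theorem sub_unit {N : ℕ} {A : MvPolynomial (Fin (N + 1)) ℂ} {L : Type} [Field L] [Algebra ℂ L]
    {w : ℕ} {y : Fin (N + 1) → L} (hy : SubVar (fun _ : Unit => A) L w y) :
      SubVar (fun p : ({A} : Set _) => (p : MvPolynomial (Fin (N + 1)) ℂ)) L w y := by
  refine ⟨hy.ne, fun p => ?_, hy.gen, hy.dim⟩
  obtain ⟨p, hp⟩ := p
  rw [Set.mem_singleton_iff] at hp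
  subst hp
  exact hy.mem ()

theorem unit_sub {N : ℕ} {A : MvPolynomial (Fin (N + 1)) ℂ} {L : Type} [Field L] [Algebra ℂ L]
    {w : ℕ} {y : Fin (N + 1) → L}
    (hy : SubVar (fun p : ({A} : Set _) => (p : MvPolynomial (Fin (N + 1)) ℂ)) L w y) :
      SubVar (fun _ : Unit => A) L w y :=
  ⟨hy.ne, fun _ => hy.mem ⟨A, rfl⟩, hy.gen, hy.dim⟩

/-- forms vanishing on `v(X)` vanish on the subvarieties of `Y` which are not of general type -/
theorem special_of_van {n N d : ℕ} {m : Fin (N + 1) → Fin (n + 1) → ℕ}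
    {S : Set (MvPolynomial (Fin (n + 1)) ℂ)} {A : MvPolynomial (Fin (N + 1)) ℂ}
    (hg : Good n N d m S A) {F : MvPolynomial (Fin (N + 1)) ℂ} (hF : IsForm F)
    (h : ∀ x : Fin (n + 1) → ℂ, (∀ p ∈ S, eval x p = 0) → eval (ver m x) F = 0) :
    OnSpecial {A} F := by
  intro L _ _ w y hw hy
  rcases hg.special L w y hw hy with h1 | ⟨x, c, hx, hc, hxS, hyx⟩
  · exact Or.inl h1
  · right
    rw [hyx, aeval_zero_of hF hc, ← aeval_pull]
    exact null (fun x hx => by rw [eval_pull]; exact h x hx) L x hxS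

end Run7.h972.LS
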