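import Mathlib
import Pool.Agent.Run7.h972.LS.Base

set_option autoImplicit false

/-!
# The hypersurfaces: the explicit form of their properties

Helper file for MP_7ede32_ag, MP_2ae8fe_ag, MP_e52354_nt, MP_1e3e9c_ag.
-/

namespace Run7.h972.LS

open MvPolynomial
open Pool.Agent.W602.GT (SubVar GeneralType)
open Pool.Agent.N254.SQ

/-- For every projective variety `X = V(S)` in `P^n` over a field `K` in `ℂ`, given by forms of degree
at most `d`, and every `D ≥ D₁ N` there are quadratic forms `Q t` over `K` such that the hypersurface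
`Y = {∑ Q_t(y) (y_0 + t y_1 + ⋯ + t ^ N y_N) ^ D = 0}` is smooth and contains the image of `X` under
the Veronese embedding of degree `d`, and all entire curves and all closed subvarieties of `Y` of
positive dimension which are not constant, or not of general type, are in the image of `X`. -/
def Through (D₁ : ℕ → ℕ) : Prop :=
  ∀ n d : ℕ, 1 ≤ n → 3 ≤ d → ∃ (N : ℕ) (m : Fin (N + 1) → Fin (n + 1) → ℕ),
    Monomials n N d m ∧ ∀ D, D₁ N ≤ D → ∀ (K : Type) [Field K] [CharZero K] (σ : K →+* ℂ)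
      (S : Set (MvPolynomial (Fin (n + 1)) K)), (∀ p ∈ S, ∃ e ≤ d, p.IsHomogeneous e) →
      ∃ Q : Fin (N * (2 * N + 1)) → MvPolynomial (Fin (N + 1)) K,
        (∀ t, (Q t).IsHomogeneous 2) ∧ SmoothOver (powerFormOver D Q) ∧
        (∀ x : Fin (n + 1) → ℂ, (∀ p ∈ S, eval₂ σ x p = 0) →
          eval₂ σ (veronese m x) (powerFormOver D Q) = 0) ∧
        (∀ f : ℂ → Fin (N + 1) → ℂ, Differentiable ℂ f → (∀ z, f z ≠ 0) →
          (∀ z, eval₂ σ (f z) (powerFormOver D Q) = 0) → (∀ z w, ∃ c : ℂ, f w = c • f z) ∨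
            ∀ z, ∃ x : Fin (n + 1) → ℂ, (∀ p ∈ S, eval₂ σ x p = 0) ∧ f z = veronese m x) ∧
        ∀ (L : Type) [Field L] [Algebra ℂ L] (w : ℕ) (y : Fin (N + 1) → L), 1 ≤ w →
          SubVar (fun _ : Unit => map σ (powerFormOver D Q)) L w y → GeneralType ℂ L w ∨
            ∃ (x : Fin (n + 1) → L) (c : L), c ≠ 0 ∧ (∀ p ∈ S, aeval x (map σ p) = 0) ∧
              y = c • veronese m x

theorem through {D₁ : ℕ → ℕ} (H : Cons D₁) : Through D₁ := by
  intro n d hn hd
  obtain ⟨N, m, hm, H2⟩ := H n d hn hd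
  refine ⟨N, m, hm, fun D hD K _ _ σ S hS => ?_⟩
  obtain ⟨Q, hQ, hsm, hg⟩ := H2 D hD K σ S hS
  refine ⟨Q, hQ, hsm, ?_, ?_, ?_⟩
  · intro x hx
    have h1 := hg.sub ℂ x (by
      rintro _ ⟨p, hp, rfl⟩
      have := hx p hp
      rw [← eval_map] at this
      exact this)
    rw [← eval_map]
    exact h1
  · intro f hf hf0 hfA
    rcases hg.curves f hf hf0 (fun z => by rw [eval_map]; exact hfA z) with h1 | h1
    · exact Or.inl h1
    · right
      intro z
      obtain ⟨x, -, hx, hfx⟩ := h1 z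
      refine ⟨x, fun p hp => ?_, hfx⟩
      rw [← eval_map]
      exact hx _ ⟨p, hp, rfl⟩
  · intro L _ _ w y hw hy
    rcases hg.special L w y hw (sub_unit hy) with h1 | ⟨x, c, -, hc, hx, hyx⟩
    · exact Or.inl h1
    · exact Or.inr ⟨x, c, hc, fun p hp => hx _ ⟨p, hp, rfl⟩, hyx⟩

end Run7.h972.LS
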