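import Mathlib
import Pool.Agent.Run7.h972.LS.Base

set_option autoImplicit false

/-!
# Local rings of projective varieties and the Veronese map; Kobayashi's conjecture

Helper file for MP_1e3e9c_ag.
-/

namespace Run7.h972.LS

open MvPolynomial
open Pool.Agent.W602.GT (SubVar GeneralType)
open Pool.Agent.N254.SQ

/-- The local ring at the point `x` of the projective variety with generic point `y`: the subring of
the function field of the quotients `F(y) / G(y)` of forms of the same degree with `G(x) ≠ 0`. -/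
def localRing {n : ℕ} {L : Type} [Field L] [Algebra ℂ L] (y : Fin (n + 1) → L)
    (x : Fin (n + 1) → ℂ) : Subring L where
  carrier := {a | ∃ (e : ℕ) (F G : MvPolynomial (Fin (n + 1)) ℂ), F.IsHomogeneous e ∧
    G.IsHomogeneous e ∧ eval x G ≠ 0 ∧ a * aeval y G = aeval y F}
  mul_mem' := by
    rintro a b ⟨e, F, G, hF, hG, h0, h⟩ ⟨e', F', G', hF', hG', h0', h'⟩
    refine ⟨e + e', F * F', G * G', hF.mul hF', hG.mul hG', ?_, ?_⟩
    · rw [map_mul]
      exact mul_ne_zero h0 h0'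
    · rw [map_mul, map_mul, ← h, ← h']
      ring
  one_mem' := ⟨0, 1, 1, isHomogeneous_one _ _, isHomogeneous_one _ _, by rw [map_one]; exact one_ne_zero,
    by rw [one_mul]⟩
  add_mem' := by
    rintro a b ⟨e, F, G, hF, hG, h0, h⟩ ⟨e', F', G', hF', hG', h0', h'⟩
    refine ⟨e + e', F * G' + G * F', G * G', (hF.mul hG').add (hG.mul hF'), hG.mul hG', ?_, ?_⟩
    · rw [map_mul]
      exact mul_ne_zero h0 h0'
    · rw [map_mul, map_add, map_mul, map_mul, ← h, ← h']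
      ring
  zero_mem' := ⟨0, 0, 1, isHomogeneous_zero _ _ _, isHomogeneous_one _ _,
    by rw [map_one]; exact one_ne_zero, by rw [zero_mul, map_zero]⟩
  neg_mem' := by
    rintro a ⟨e, F, G, hF, hG, h0, h⟩
    refine ⟨e, -F, G, hF.neg, hG, h0, ?_⟩
    rw [map_neg, ← h, neg_mul]

/-- the projective variety with generic point `y` is smooth: its local rings are regular -/
def SmoothVar {n : ℕ} {L : Type} [Field L] [Algebra ℂ L] (y : Fin (n + 1) → L) : Prop :=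
  ∀ x : Fin (n + 1) → ℂ, x ≠ 0 → (∀ p ∈ Eqs y, eval x p = 0) →
    IsRegularLocalRing (localRing y x)

/-- all entire curves in `V(S)` are constant: `V(S)` is hyperbolic -/
def Hyp {n : ℕ} (S : Set (MvPolynomial (Fin (n + 1)) ℂ)) : Prop :=
  ∀ f : ℂ → (Fin (n + 1) → ℂ), Differentiable ℂ f → (∀ z, f z ≠ 0) →
    (∀ z, ∀ p ∈ S, eval (f z) p = 0) → ∀ z w, ∃ c : ℂ, f w = c • f z

/-- Kobayashi's conjecture: the smooth hyperbolic projective varieties of positive dimension are of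
general type -/
def Kob : Prop :=
  ∀ (n : ℕ) (L : Type) [Field L] [Algebra ℂ L] (w : ℕ) (y : Fin (n + 1) → L), 1 ≤ w →
    SubVar (fun p : (∅ : Set (MvPolynomial (Fin (n + 1)) ℂ)) => (p : MvPolynomial (Fin (n + 1)) ℂ))
      L w y → SmoothVar y → Hyp (Eqs y) → GeneralType ℂ L w

/-- if the hypersurface `A = 0` is hyperbolic then its smooth subvarieties of positive dimension are
of general type -/
def KobY {N : ℕ} (A : MvPolynomial (Fin (N + 1)) ℂ) : Prop :=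
  Hyp {A} → ∀ (L : Type) [Field L] [Algebra ℂ L] (w : ℕ) (y : Fin (N + 1) → L), 1 ≤ w →
    SubVar (fun _ : Unit => A) L w y → SmoothVar y → GeneralType ℂ L w

theorem hyp_iff {n : ℕ} {S : Set (MvPolynomial (Fin (n + 1)) ℂ)} : Hyp S ↔ OnCurves S 1 := by
  constructor
  · intro h f hf hf0 hfS
    exact Or.inl (h f hf hf0 hfS)
  · intro h f hf hf0 hfS
    rcases h f hf hf0 hfS with h1 | h1
    · exact h1
    · exact absurd (h1 0) (by rw [map_one]; exact one_ne_zero)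

theorem hyp_good {n N d : ℕ} {m : Fin (N + 1) → Fin (n + 1) → ℕ}
    {S : Set (MvPolynomial (Fin (n + 1)) ℂ)} {A : MvPolynomial (Fin (N + 1)) ℂ}
    (hg : Good n N d m S A) : Hyp {A} ↔ Hyp S := by
  have hpull : pull m (1 : MvPolynomial (Fin (N + 1)) ℂ) = 1 := map_one _
  rw [hyp_iff, hyp_iff]
  have h1 := curves_iff t_lift hg (G := (1 : MvPolynomial (Fin (N + 1)) ℂ))
  rw [hpull] at h1
  exact h1

theorem eval_smul' {N e : ℕ} {G : MvPolynomial (Fin (N + 1)) ℂ} (hG : G.IsHomogeneous e) (c : ℂ)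
    (x : Fin (N + 1) → ℂ) : eval (c • x) G = c ^ e * eval x G := eval_scale hG c x

theorem local_eq {n N d : ℕ} {m : Fin (N + 1) → Fin (n + 1) → ℕ} (hm : Mon n N d m) (hd : 1 ≤ d)
    {L : Type} [Field L] [Algebra ℂ L] (y : Fin (n + 1) → L) {x : Fin (n + 1) → ℂ} (hx : x ≠ 0)
    {c : ℂ} (hc : c ≠ 0) : localRing (ver m y) (c • ver m x) = localRing y x := by
  obtain ⟨a, ha⟩ : ∃ a, x a ≠ 0 := by
    by_contra hcon
    push Not at hcon
    exact hx (funext hcon)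
  ext b
  constructor
  · rintro ⟨e, F, G, hF, hG, h0, h⟩
    refine ⟨d * e, pull m F, pull m G, pull_hom hm hF, pull_hom hm hG, ?_, ?_⟩
    · rw [eval_pull]
      intro h1
      rw [eval_smul' hG, h1, mul_zero] at h0
      exact h0 rfl
    · rw [aeval_pull, aeval_pull]
      exact h
  · rintro ⟨e, F, G, hF, hG, h0, h⟩
    have hdeg : e + e * (d - 1) = d * e := by
      obtain ⟨k, rfl⟩ : ∃ k, d = 1 + k := ⟨d - 1, by omega⟩
      rw [Nat.add_sub_cancel_left]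
      ring
    have hX : ((X a : MvPolynomial (Fin (n + 1)) ℂ) ^ (e * (d - 1))).IsHomogeneous (e * (d - 1)) := by
      have := (isHomogeneous_X ℂ a).pow (e * (d - 1))
      rwa [one_mul] at this
    obtain ⟨F', hF', hF2⟩ := t_versurj n N d m hm e (F * X a ^ (e * (d - 1))) (by
      rw [← hdeg]; exact hF.mul hX)
    obtain ⟨G', hG', hG2⟩ := t_versurj n N d m hm e (G * X a ^ (e * (d - 1))) (by
      rw [← hdeg]; exact hG.mul hX)
    have hF3 : pull m F' = F * X a ^ (e * (d - 1)) := hF2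
    have hG3 : pull m G' = G * X a ^ (e * (d - 1)) := hG2
    refine ⟨e, F', G', hF', hG', ?_, ?_⟩
    · rw [eval_smul' hG', ← eval_pull, hG3, map_mul, map_pow, eval_X]
      exact mul_ne_zero (pow_ne_zero _ hc) (mul_ne_zero h0 (pow_ne_zero _ ha))
    · rw [← aeval_pull, ← aeval_pull, hF3, hG3, map_mul, map_mul, ← h]
      ring

/-- the points of the image of `X` -/
theorem ver_points {n N d : ℕ} {m : Fin (N + 1) → Fin (n + 1) → ℕ} (hm : Mon n N d m) (hd : 1 ≤ d)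
    {S : Set (MvPolynomial (Fin (n + 1)) ℂ)} (hS : ∀ p ∈ S, ∃ e ≤ d, p.IsHomogeneous e)
    {L : Type} [Field L] [Algebra ℂ L] {y : Fin (n + 1) → L} (hy : ∀ p ∈ S, aeval y p = 0)
    (hirr : Irr S y) {z : Fin (N + 1) → ℂ} (hz0 : z ≠ 0) (hz : ∀ p ∈ Eqs (ver m y), eval z p = 0) :
    ∃ (x : Fin (n + 1) → ℂ) (c : ℂ), x ≠ 0 ∧ c ≠ 0 ∧ (∀ p ∈ Eqs y, eval x p = 0) ∧
      z = c • ver m x := by
  classical
  obtain ⟨T, hT, hTS⟩ := reduce S
  have hT2 : ∀ p : T, ∃ e ≤ d, (p : MvPolynomial (Fin (n + 1)) ℂ).IsHomogeneous e :=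
    fun p => hS _ (hT p.2)
  choose e he hp using hT2
  obtain ⟨ι, _, q, hq, hq1, hq2⟩ := t_ver ℂ n N d m hm hd T
    (fun p => (p : MvPolynomial (Fin (n + 1)) ℂ)) e hp he
  obtain ⟨-, x, a, b, hxa, hyb, hyx, hxT⟩ := hq2 ℂ z hz0
    (fun i => hz (q i) ⟨⟨2, hq i⟩, hq1 L y (fun k => hy _ (hT k.2)) i⟩)
  have hx0 : x ≠ 0 := by
    intro h0
    rw [h0] at hxa
    exact zero_ne_one hxa
  have hxS : ∀ p ∈ S, eval x p = 0 := by
    intro p hp
    have h1 := hTS ℂ (RingHom.id ℂ) x (fun p hp => by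
      rw [map_id]
      exact hxT ⟨p, hp⟩) p hp
    rwa [map_id] at h1
  exact ⟨x, z b, hx0, hyb, fun p hp => hirr p hp.1 hp.2 ℂ x fun p hp => hxS p hp,
    funext fun c => by rw [Pi.smul_apply, smul_eq_mul]; exact hyx c⟩

theorem smooth_ver {n N d : ℕ} {m : Fin (N + 1) → Fin (n + 1) → ℕ} (hm : Mon n N d m) (hd : 1 ≤ d)
    {S : Set (MvPolynomial (Fin (n + 1)) ℂ)} (hS : ∀ p ∈ S, ∃ e ≤ d, p.IsHomogeneous e)
    {L : Type} [Field L] [Algebra ℂ L] {y : Fin (n + 1) → L} (hy : ∀ p ∈ S, aeval y p = 0)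
    (hirr : Irr S y) : SmoothVar (ver m y) ↔ SmoothVar y := by
  constructor
  · intro h x hx hxy
    have h1 := h ((1 : ℂ) • ver m x) (by rw [one_smul]; exact ver_ne_zero hm hd hx) (by
      rintro p ⟨⟨e, he⟩, hp⟩
      rw [one_smul, ← eval_pull]
      refine hxy _ ⟨⟨_, pull_hom hm he⟩, ?_⟩
      rw [aeval_pull]
      exact hp)
    rw [local_eq hm hd y hx one_ne_zero] at h1
    exact h1
  · intro h z hz0 hz
    obtain ⟨x, c, hx, hc, hxy, rfl⟩ := ver_points hm hd hS hy hirr hz0 hz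
    rw [local_eq hm hd y hx hc]
    exact h x hx hxy

theorem kob_back {E : Set ℕ} (hE : E.Infinite) {D₁ : ℕ → ℕ} (H : Cons D₁)
    (h : ∀ (N D : ℕ) (Q : Fin (N * (2 * N + 1)) → MvPolynomial (Fin (N + 1)) ℂ), D ∈ E →
      D₁ N ≤ D → (∀ t, (Q t).IsHomogeneous 2) → SmoothForm (powerForm D Q) →
      KobY (powerForm D Q)) : Kob := by
  intro n L _ _ w y hw hy hsm hhyp
  have hn : 1 ≤ n := le_trans hw (dim_le hy.gen hy.dim hy.ne)
  obtain ⟨T, hT, hTS⟩ := reduce (Eqs y)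
  have hTS' : ∀ (L' : Type) [Field L'] [Algebra ℂ L'] (x : Fin (n + 1) → L'),
      (∀ p ∈ (T : Set (MvPolynomial (Fin (n + 1)) ℂ)), aeval x p = 0) →
      ∀ p ∈ Eqs y, aeval x p = 0 := by
    intro L' _ _ x hx p hp
    have h1 := hTS L' (algebraMap ℂ L') x (fun p hp => by
      rw [eval_map]
      exact hx p hp) p hp
    rw [eval_map] at h1
    exact h1
  obtain ⟨d, hd3, hd⟩ := deg_bound T fun p hp => (hT hp).1
  obtain ⟨N, m, -, H2⟩ := cons_complex H n d hn hd3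
  obtain ⟨D, hD, hD2⟩ := hE.exists_gt (D₁ N)
  obtain ⟨Q, hQ, hsmQ, hg⟩ := H2 D hD2.le (T : Set (MvPolynomial (Fin (n + 1)) ℂ))
    (fun p hp => hd p hp)
  have hTy : ∀ p ∈ (T : Set (MvPolynomial (Fin (n + 1)) ℂ)), aeval y p = 0 := fun p hp => (hT hp).2
  have hirr : Irr (T : Set (MvPolynomial (Fin (n + 1)) ℂ)) y :=
    fun G hG hGy Ω _ _ x hx => hTS' Ω x hx G ⟨hG, hGy⟩
  have hTsub : SubVar (fun p : (T : Set (MvPolynomial (Fin (n + 1)) ℂ)) =>
      (p : MvPolynomial (Fin (n + 1)) ℂ)) L w y := ⟨hy.ne, fun p => hTy _ p.2, hy.gen, hy.dim⟩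
  refine h N D Q hD hD2.le hQ hsmQ ((hyp_good hg).2 ?_) L w (ver m y) hw
    (unit_sub (sub_ver hg hTsub)) ((smooth_ver hg.mon hg.deg (fun p hp => hd p hp) hTy hirr).2 hsm)
  exact fun f hf hf0 hfT => hhyp f hf hf0 fun z p hp => hTS' ℂ (f z) (fun p hp => hfT z p hp) p hp

theorem kob_forw (hQ1 : Kob) {n : ℕ} {A : MvPolynomial (Fin (n + 1)) ℂ} (hA : IsForm A) :
    KobY A := by
  intro hhyp L _ _ w y hw hy hsm
  refine hQ1 n L w y hw ⟨hy.ne, fun p => absurd p.2 (Set.notMem_empty _), hy.gen, hy.dim⟩ hsm ?_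
  refine fun f hf hf0 hfS => hhyp f hf hf0 fun z p hp => ?_
  rw [Set.mem_singleton_iff] at hp
  rw [hp]
  exact hfS z A ⟨hA, hy.mem ()⟩

end Run7.h972.LS
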