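import Mathlib
import Pool.Agent.Run7.h972.LS.Base

set_option autoImplicit false

/-!
# Lang's conjecture on rational points over a subfield of the complex numbers and smooth hypersurfaces

Helper file for MP_2ae8fe_ag.
-/

namespace Run7.h972.LS

open MvPolynomial
open Pool.Agent.W602.GT (SubVar GeneralType)
open Pool.Agent.N254.SQ

/-- Lang's conjecture over `K`, for the geometrically irreducible projective varieties of positive
dimension -/
def WL (K : Subfield ℂ) : Prop :=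
  ∀ (n : ℕ) (S : Set (MvPolynomial (Fin (n + 1)) K)), (∀ p ∈ S, ∃ e, p.IsHomogeneous e) →
    ∀ (L : Type) [Field L] [Algebra ℂ L] (w : ℕ) (y : Fin (n + 1) → L), 1 ≤ w →
      GenericPoint S L w y → GeneralType ℂ L w →
      ∃ G : MvPolynomial (Fin (n + 1)) K, (∃ e, G.IsHomogeneous e) ∧
        aeval y (map (algebraMap K ℂ) G) ≠ 0 ∧
        ∀ x : Fin (n + 1) → K, x ≠ 0 → (∀ p ∈ S, eval x p = 0) → eval x G = 0

/-- no component of the closure of the set of the `K`-rational points of `A = 0` is of general type -/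
def WLY (K : Subfield ℂ) {N : ℕ} (A : MvPolynomial (Fin (N + 1)) K) : Prop :=
  ∀ (L : Type) [Field L] [Algebra ℂ L] (w : ℕ) (y : Fin (N + 1) → L), 1 ≤ w →
    SubVar (fun _ : Unit => map (algebraMap K ℂ) A) L w y → GeneralType ℂ L w →
    ¬ Component (OnPoints K {map (algebraMap K ℂ) A}) y

/-- values at points over the subfield -/
theorem eval_coe {K : Subfield ℂ} {n : ℕ} (x : Fin (n + 1) → K) (p : MvPolynomial (Fin (n + 1)) K) :
    eval (fun j => (x j : ℂ)) (map (algebraMap K ℂ) p) = ((eval x p : K) : ℂ) := by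
  rw [eval_map]
  have := eval₂_comp_left (algebraMap K ℂ) (RingHom.id K) x p
  rw [eval₂_id] at this
  simp only [RingHom.comp_id] at this
  exact this.symm

theorem wl_back (K : Subfield ℂ) {E : Set ℕ} (hE : E.Infinite) {D₁ : ℕ → ℕ} (H : Cons D₁)
    (h : ∀ (N D : ℕ) (Q : Fin (N * (2 * N + 1)) → MvPolynomial (Fin (N + 1)) K), D ∈ E →
      D₁ N ≤ D → (∀ t, (Q t).IsHomogeneous 2) → SmoothOver (powerFormOver D Q) →
      WLY K (powerFormOver D Q)) : WL K := by
  intro n S hS L _ _ w y hw hy hGT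
  have hn : 1 ≤ n := le_trans hw (dim_le hy.sub.gen hy.sub.dim hy.sub.ne)
  obtain ⟨T, hT, hTS⟩ := reduce S
  obtain ⟨d, hd3, hd⟩ := deg_bound T fun p hp => hS p (hT hp)
  obtain ⟨N, m, -, H2⟩ := H n d hn hd3
  obtain ⟨D, hD, hD2⟩ := hE.exists_gt (D₁ N)
  obtain ⟨Q, hQ, hsm, hg⟩ := H2 D hD2.le K (algebraMap K ℂ)
    (T : Set (MvPolynomial (Fin (n + 1)) K)) (fun p hp => hd p hp)
  have hX := h N D Q hD hD2.le hQ hsm
  have hTy : SubVar (fun p : (map (algebraMap K ℂ) '' (T : Set (MvPolynomial (Fin (n + 1)) K)) :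
      Set _) => (p : MvPolynomial (Fin (n + 1)) ℂ)) L w y := by
    refine ⟨hy.sub.ne, ?_, hy.sub.gen, hy.sub.dim⟩
    rintro ⟨_, p, hp, rfl⟩
    exact hy.sub.mem ⟨p, hT hp⟩
  have hirr : Irr (map (algebraMap K ℂ) '' (T : Set (MvPolynomial (Fin (n + 1)) K))) y := by
    intro G hG hGy Ω _ _ x hx
    refine null (S := map (algebraMap K ℂ) '' (T : Set (MvPolynomial (Fin (n + 1)) K)))
      (fun x hx => hy.all G hG hGy x fun p hp => ?_) Ω x hx
    have h1 := hTS ℂ (algebraMap K ℂ) x (fun p hp => hx _ ⟨p, hp, rfl⟩) p hp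
    rw [eval_map] at h1
    exact h1
  obtain ⟨G, hG, hGI, hGy⟩ := t_key t_comp n N d m _ _ hg L w y hw hTy hirr hGT
    (OnPoints K {map (algebraMap K ℂ) (powerFormOver D Q)}) (t_idls.points N K _)
    (fun x _ _ hx => hx _ rfl)
    (fun L' _ _ w' y' hw' hy' hGT' => hX L' w' y' hw' (unit_sub hy') hGT')
  obtain ⟨e, he⟩ := hG
  -- the points of `X`
  have hvan : ∀ x ∈ {x : Fin (n + 1) → ℂ | x ≠ 0 ∧ (∀ j, x j ∈ K) ∧
      ∀ p ∈ S, eval x (map (algebraMap K ℂ) p) = 0}, eval x (pull m G) = 0 := by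
    rintro x ⟨hx, hxK, hxS⟩
    rw [eval_pull]
    refine hGI (ver m x) (ver_ne_zero hg.mon hg.deg hx)
      (fun j => prod_mem fun s _ => pow_mem (hxK s) _) ?_
    intro p hp
    rw [Set.mem_singleton_iff] at hp
    rw [hp]
    refine hg.sub ℂ x ?_
    rintro _ ⟨p, hp, rfl⟩
    exact hxS p (hT hp)
  obtain ⟨r, b, g, hg1, hg2, hg3⟩ := t_desc K n (d * e) _ (fun x hx => hx.2.1) (pull m G)
    (pull_hom hg.mon he) hvan
  obtain ⟨i, hi⟩ : ∃ i, aeval y (map (algebraMap K ℂ) (g i)) ≠ 0 := by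
    by_contra hcon
    push Not at hcon
    apply hGy
    rw [hg3, map_sum]
    exact Finset.sum_eq_zero fun i _ => by rw [map_mul, hcon i, mul_zero]
  refine ⟨g i, ⟨_, hg1 i⟩, hi, fun x hx hxS => ?_⟩
  have h1 := hg2 i (fun j => (x j : ℂ)) ⟨fun h0 => hx (funext fun j => Subtype.ext (congrFun h0 j)),
    fun j => (x j).2, fun p hp => by rw [eval_coe, hxS p hp]; rfl⟩
  rw [eval_coe] at h1
  exact Subtype.ext h1

theorem wl_forw (K : Subfield ℂ) (hQ1 : WL K) {n : ℕ} (A : MvPolynomial (Fin (n + 1)) K) :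
    WLY K A := by
  rintro L _ _ w y hw hy hGT ⟨hc1, H, hH, hHy, hc2⟩
  set A' := map (algebraMap K ℂ) A with hA'
  have hgen : Gen L w y := ⟨hy.ne, hy.gen, hy.dim⟩
  -- the rational points are dense
  have hdense : ∀ G, Fm G → (aeval y G = 0 ↔ ∀ x ∈ {x : Fin (n + 1) → ℂ | x ≠ 0 ∧
      (∀ j, x j ∈ K) ∧ ∀ p ∈ Eqs y, eval x p = 0}, eval x G = 0) := by
    intro G hG
    refine ⟨fun h x hx => hx.2.2 G ⟨hG, h⟩, fun h => ?_⟩
    have h3 := t_restr.points n K {A'} L y G H hG hH hc2 (fun x hx hxK hxS => h x ⟨hx, hxK, hxS⟩)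
    obtain ⟨e, he⟩ := hG
    obtain ⟨e', he'⟩ := id hH
    have h4 := hc1 (G * H) ⟨_, he.mul he'⟩ h3
    rw [map_mul, mul_eq_zero] at h4
    exact h4.resolve_right hHy
  obtain ⟨S, hS1, hS2, hS3⟩ := numk K n L w y hgen _ (fun x hx => hx.2.1) hdense
  have hGP : GenericPoint (S : Set (MvPolynomial (Fin (n + 1)) K)) L w y := by
    refine ⟨⟨hy.ne, fun p => hS2 _ p.2, hy.gen, hy.dim⟩, fun G hG hGy x hx => ?_⟩
    refine hS3 G hG hGy ℂ x fun p hp => ?_
    have h1 := hx p hp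
    rw [aeval_def] at h1
    change eval x (map (algebraMap K ℂ) p) = 0
    rw [eval_map]
    exact h1
  obtain ⟨G, ⟨e, he⟩, hGy, hG⟩ := hQ1 n S (fun p hp => hS1 p hp) L w y hw hGP hGT
  have hGf : IsForm (map (algebraMap K ℂ) G) := ⟨e, he.map _⟩
  have hon : OnPoints K (Eqs y) (map (algebraMap K ℂ) G) := by
    intro x hx hxK hxS
    obtain ⟨x', rfl⟩ : ∃ x' : Fin (n + 1) → K, x = fun j => (x' j : ℂ) :=
      ⟨fun j => ⟨x j, hxK j⟩, rfl⟩
    rw [eval_coe]
    have h1 : eval x' G = 0 := by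
      refine hG x' (fun h0 => hx (funext fun j => ?_)) fun p hp => ?_
      · simp only [h0]
        rfl
      · obtain ⟨e', he'⟩ := hS1 p hp
        have h2 := hxS _ ⟨⟨e', he'.map (algebraMap K ℂ)⟩, hS2 p hp⟩
        rw [eval_coe] at h2
        exact Subtype.ext h2
    rw [h1]
    rfl
  have h3 := t_restr.points n K {A'} L y _ H hGf hH hc2 hon
  obtain ⟨e', he'⟩ := id hH
  have h4 := hc1 _ ⟨_, (he.map _).mul he'⟩ h3
  rw [map_mul, mul_eq_zero] at h4
  rcases h4 with h4 | h4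
  · exact hGy h4
  · exact hHy h4

end Run7.h972.LS
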