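import Mathlib
import Pool.Agent.Run7.h972.LS.Base

set_option autoImplicit false

/-!
# Descent of a closed subset from an algebraic extension

Helper file for MP_7ede32_ag.
-/

namespace Run7.h972.LS

open MvPolynomial
open Pool.Agent.W602.GT (SubVar GeneralType)
open Pool.Agent.N254.SQ

/-- A form with algebraic coefficients over `k` which does not vanish on the geometrically
irreducible variety `X` over `k` divides a form over `k` which does not vanish on `X`. -/
theorem descent {k : Type} [Field k] [CharZero k] [Algebra k ℂ] {n : ℕ}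
    {S : Set (MvPolynomial (Fin (n + 1)) k)} {L : Type} [Field L] [Algebra ℂ L] {w : ℕ}
    {y : Fin (n + 1) → L} (hy : GenericPoint S L w y) {e : ℕ} (g : MvPolynomial (Fin (n + 1)) ℂ)
    (hg : g.IsHomogeneous e) (halg : ∀ α, IsAlgebraic k (coeff α g)) (hgy : aeval y g ≠ 0) :
    ∃ G : MvPolynomial (Fin (n + 1)) k, (∃ e, G.IsHomogeneous e) ∧
      aeval y (map (algebraMap k ℂ) G) ≠ 0 ∧ g ∣ map (algebraMap k ℂ) G := by
  classical
  obtain ⟨p, hp0, hp⟩ : ∃ p : Polynomial k, p ≠ 0 ∧
      ∀ α ∈ g.support, Polynomial.aeval (coeff α g) p = 0 := by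
    refine ⟨∏ α ∈ g.support, minpoly k (coeff α g),
      Finset.prod_ne_zero_iff.2 fun α _ => minpoly.ne_zero (halg α).isIntegral, fun α hα => ?_⟩
    rw [map_prod]
    exact Finset.prod_eq_zero hα (minpoly.aeval _ _)
  obtain ⟨F, hF⟩ : ∃ F : IntermediateField k ℂ, F = IntermediateField.adjoin k (p.rootSet ℂ) :=
    ⟨_, rfl⟩
  have hspl : p.IsSplittingField k F := by
    rw [hF]
    exact IntermediateField.adjoin_rootSet_isSplittingField (IsAlgClosed.splits _)
  have hfin : FiniteDimensional k F := Polynomial.IsSplittingField.finiteDimensional F p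
  have hnor : Normal k F := Normal.of_isSplittingField p
  have hgal : IsGalois k F := ⟨⟩
  have hmem : ∀ α, coeff α g ∈ F := by
    intro α
    by_cases hα : α ∈ g.support
    · rw [hF]
      apply IntermediateField.subset_adjoin
      rw [Polynomial.mem_rootSet]
      exact ⟨hp0, hp α hα⟩
    · rw [notMem_support_iff.1 hα]
      exact F.zero_mem
  obtain ⟨g', hg'⟩ : ∃ g' : MvPolynomial (Fin (n + 1)) F, map (algebraMap F ℂ) g' = g := by
    apply mem_range_map_iff_coeffs_subset.2
    intro z hz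
    rw [Finset.mem_coe, mem_coeffs_iff] at hz
    obtain ⟨α, _, rfl⟩ := hz
    exact ⟨⟨_, hmem α⟩, rfl⟩
  have hg'e : g'.IsHomogeneous e := by
    apply IsHomogeneous.of_map (f := algebraMap F ℂ) (algebraMap F ℂ).injective
    rw [hg']
    exact hg
  obtain ⟨M, hM⟩ : ∃ M : MvPolynomial (Fin (n + 1)) F,
      M = ∏ σ : F ≃ₐ[k] F, map (σ : F →+* F) g' := ⟨_, rfl⟩
  have hMe : M.IsHomogeneous (∑ _σ : F ≃ₐ[k] F, e) := by
    rw [hM]
    exact IsHomogeneous.prod _ _ _ fun σ _ => hg'e.map _
  have hfix : ∀ τ : F ≃ₐ[k] F, map (τ : F →+* F) M = M := by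
    intro τ
    rw [hM, map_prod]
    refine Fintype.prod_equiv (Equiv.mulLeft τ) _ _ fun σ => ?_
    rw [map_map]
    rfl
  obtain ⟨G, hG⟩ : ∃ G : MvPolynomial (Fin (n + 1)) k, map (algebraMap k F) G = M := by
    apply mem_range_map_iff_coeffs_subset.2
    intro z hz
    rw [Finset.mem_coe, mem_coeffs_iff] at hz
    obtain ⟨α, _, rfl⟩ := hz
    rw [IsGalois.mem_range_algebraMap_iff_fixed]
    intro τ
    have h1 := congrArg (coeff α) (hfix τ)
    rw [coeff_map] at h1
    exact h1
  have hGC : map (algebraMap k ℂ) G = map (algebraMap F ℂ) M := by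
    rw [← hG, map_map]
    rfl
  have hprod : map (algebraMap k ℂ) G =
      ∏ σ : F ≃ₐ[k] F, map (algebraMap F ℂ) (map (σ : F →+* F) g') := by
    rw [hGC, hM, map_prod]
  refine ⟨G, ⟨∑ _σ : F ≃ₐ[k] F, e, ?_⟩, ?_, ?_⟩
  · apply IsHomogeneous.of_map (f := algebraMap k F) (algebraMap k F).injective
    rw [hG]
    exact hMe
  · rw [hprod, map_prod, Finset.prod_ne_zero_iff]
    intro σ _ h0
    -- the conjugate form vanishes on all complex points
    have h1 : map (σ : F →+* F) g' ∈ vanishingIdeal F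
        (zeroLocus ℂ (Ideal.span (map (algebraMap k F) '' S))) := by
      intro x hx
      have h2 := hy.all _ ⟨e, (hg'e.map _).map _⟩ h0 x fun p hp => by
        have h3 := hx _ (Ideal.subset_span ⟨p, hp, rfl⟩)
        rw [aeval_map_algebraMap] at h3
        exact h3
      rw [eval_map] at h2
      exact h2
    rw [vanishingIdeal_zeroLocus_eq_radical] at h1
    obtain ⟨r, hr⟩ := h1
    have h2 : Ideal.span (map (algebraMap k F) '' S) ≤
        RingHom.ker (((aeval y : MvPolynomial (Fin (n + 1)) ℂ →ₐ[ℂ] L) : _ →+* L).comp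
          ((map (algebraMap F ℂ)).comp (map ((σ⁻¹ : F ≃ₐ[k] F) : F →+* F)))) := by
      rw [Ideal.span_le]
      rintro _ ⟨p, hp, rfl⟩
      rw [SetLike.mem_coe, RingHom.mem_ker]
      simp only [RingHom.comp_apply, RingHom.coe_coe]
      rw [map_map, map_map]
      have h3 : ((algebraMap F ℂ).comp ((σ⁻¹ : F ≃ₐ[k] F) : F →+* F)).comp (algebraMap k F) =
          algebraMap k ℂ := by
        ext c
        simp
      rw [h3]
      exact hy.sub.mem ⟨p, hp⟩
    have h3 := h2 hr
    rw [RingHom.mem_ker, map_pow] at h3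
    have h4 := eq_zero_of_pow_eq_zero h3
    simp only [RingHom.comp_apply, RingHom.coe_coe] at h4
    rw [map_map] at h4
    have h5 : ((σ⁻¹ : F ≃ₐ[k] F) : F →+* F).comp (σ : F →+* F) = RingHom.id F := by
      ext c
      simp [AlgEquiv.aut_inv]
    rw [map_map, RingHom.comp_assoc, h5, RingHom.comp_id, hg'] at h4
    exact hgy h4
  · rw [hprod, ← hg']
    have h1 := Finset.dvd_prod_of_mem (fun σ : F ≃ₐ[k] F => map (algebraMap F ℂ)
      (map (σ : F →+* F) g')) (Finset.mem_univ (1 : F ≃ₐ[k] F))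
    have h2 : map ((1 : F ≃ₐ[k] F) : F →+* F) g' = g' := by
      have h3 : ((1 : F ≃ₐ[k] F) : F →+* F) = RingHom.id F := by
        ext c
        simp
      rw [h3, map_id]
    simp only [h2] at h1
    exact h1

end Run7.h972.LS
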