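import Mathlib
import Pool.Agent.Run7.h972.LS.Base
import Pool.Agent.Run7.h972.LS.Dsc
import Pool.Agent.N254.SQ.FgB

set_option autoImplicit false

/-!
# Lang's strong conjecture and smooth hypersurfaces

Helper file for MP_7ede32_ag.
-/

namespace Run7.h972.LS

open MvPolynomial
open Pool.Agent.W602.GT (SubVar GeneralType)
open Pool.Agent.N254.SQ
open scoped LinearAlgebra.Projectivization

/-- Lang's strong conjecture, for the geometrically irreducible projective varieties of positive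
dimension over the number fields in `ℂ` -/
def SLang : Prop :=
  ∀ k : IntermediateField ℚ ℂ, FiniteDimensional ℚ k →
  ∀ (n : ℕ) (S : Set (MvPolynomial (Fin (n + 1)) k)), (∀ p ∈ S, ∃ e, p.IsHomogeneous e) →
    ∀ (L : Type) [Field L] [Algebra ℂ L] (w : ℕ) (y : Fin (n + 1) → L), 1 ≤ w →
      GenericPoint S L w y → GeneralType ℂ L w →
      ∃ G : MvPolynomial (Fin (n + 1)) k, (∃ e, G.IsHomogeneous e) ∧
        aeval y (map (algebraMap k ℂ) G) ≠ 0 ∧
        FiniteOff (map (algebraMap k ℂ) '' S) (map (algebraMap k ℂ) G)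

/-- no component of the smallest closed set in `A = 0` outside of which there are only finitely many
points over every number field is of general type -/
def SLangY {N : ℕ} (A : MvPolynomial (Fin (N + 1)) ℂ) : Prop :=
  ∀ (L : Type) [Field L] [Algebra ℂ L] (w : ℕ) (y : Fin (N + 1) → L), 1 ≤ w →
    SubVar (fun _ : Unit => A) L w y → GeneralType ℂ L w → ¬ Component (FiniteOff {A}) y

theorem fo_mono {n : ℕ} {S T : Set (MvPolynomial (Fin (n + 1)) ℂ)}
    (h : ∀ x : Fin (n + 1) → ℂ, (∀ p ∈ T, eval x p = 0) → ∀ p ∈ S, eval x p = 0)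
    {G : MvPolynomial (Fin (n + 1)) ℂ} (hG : FiniteOff S G) : FiniteOff T G := by
  intro k hk
  refine (hG k hk).subset ?_
  rintro P ⟨x, hx, h1, h2, h3, h4⟩
  exact ⟨x, hx, h1, h2, h x h3, h4⟩

theorem fo_pullback {n N d : ℕ} {m : Fin (N + 1) → Fin (n + 1) → ℕ}
    {S : Set (MvPolynomial (Fin (n + 1)) ℂ)} {A : MvPolynomial (Fin (N + 1)) ℂ}
    (hg : Good n N d m S A) {G : MvPolynomial (Fin (N + 1)) ℂ} (hG : FiniteOff {A} G) :
    FiniteOff S (pull m G) := by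
  intro k hk
  apply Set.Finite.of_finite_image (f := fgb_map hg.mon hg.deg) ((hG k hk).subset ?_)
    (fgb_inj hg.mon hg.deg).injOn
  rintro _ ⟨P, ⟨x, hx, hPx, hxL, hxS, hxG⟩, rfl⟩
  refine ⟨ver m x, ver_ne_zero hg.mon hg.deg hx, ?_, ?_, ?_, ?_⟩
  · rw [hPx]
    exact fgb_mk hg.mon hg.deg hx
  · intro j
    exact prod_mem fun s _ => pow_mem (hxL s) _
  · intro p hp
    rw [Set.mem_singleton_iff] at hp
    rw [hp]
    exact hg.sub ℂ x hxS
  · rw [← eval_pull]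
    exact hxG

theorem sl_back {E : Set ℕ} (hE : E.Infinite) {D₁ : ℕ → ℕ} (H : Cons D₁)
    (h : ∀ k : IntermediateField ℚ ℂ, FiniteDimensional ℚ k →
      ∀ (N D : ℕ) (Q : Fin (N * (2 * N + 1)) → MvPolynomial (Fin (N + 1)) k), D ∈ E →
      D₁ N ≤ D → (∀ t, (Q t).IsHomogeneous 2) → SmoothOver (powerFormOver D Q) →
      SLangY (map (algebraMap k ℂ) (powerFormOver D Q))) : SLang := by
  intro k hk n S hS L _ _ w y hw hy hGT
  have hn : 1 ≤ n := le_trans hw (dim_le hy.sub.gen hy.sub.dim hy.sub.ne)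
  obtain ⟨T, hT, hTS⟩ := reduce S
  obtain ⟨d, hd3, hd⟩ := deg_bound T fun p hp => hS p (hT hp)
  obtain ⟨N, m, -, H2⟩ := H n d hn hd3
  obtain ⟨D, hD, hD2⟩ := hE.exists_gt (D₁ N)
  obtain ⟨Q, hQ, hsm, hg⟩ := H2 D hD2.le k (algebraMap k ℂ)
    (T : Set (MvPolynomial (Fin (n + 1)) k)) (fun p hp => hd p hp)
  have hX := h k hk N D Q hD hD2.le hQ hsm
  have hTy : SubVar (fun p : (map (algebraMap k ℂ) '' (T : Set (MvPolynomial (Fin (n + 1)) k)) :
      Set _) => (p : MvPolynomial (Fin (n + 1)) ℂ)) L w y := by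
    refine ⟨hy.sub.ne, ?_, hy.sub.gen, hy.sub.dim⟩
    rintro ⟨_, p, hp, rfl⟩
    exact hy.sub.mem ⟨p, hT hp⟩
  have hirr : Irr (map (algebraMap k ℂ) '' (T : Set (MvPolynomial (Fin (n + 1)) k))) y := by
    intro G hG hGy Ω _ _ x hx
    refine null (S := map (algebraMap k ℂ) '' (T : Set (MvPolynomial (Fin (n + 1)) k)))
      (fun x hx => hy.all G hG hGy x fun p hp => ?_) Ω x hx
    have h1 := hTS ℂ (algebraMap k ℂ) x (fun p hp => hx _ ⟨p, hp, rfl⟩) p hp
    rw [eval_map] at h1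
    exact h1
  obtain ⟨G, hG, hGI, hGy⟩ := t_key t_comp n N d m _ _ hg L w y hw hTy hirr hGT
    (FiniteOff {map (algebraMap k ℂ) (powerFormOver D Q)}) (t_idls.finite N _)
    (fun k' _ => by
      refine Set.finite_empty.subset ?_
      rintro P ⟨x, hx, -, -, h1, h2⟩
      exact absurd (h1 _ rfl) h2)
    (fun L' _ _ w' y' hw' hy' hGT' => hX L' w' y' hw' (unit_sub hy') hGT')
  obtain ⟨e, he⟩ := hG
  have hP := fo_pullback hg hGI
  -- a form over the field of algebraic numbers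
  obtain ⟨r, b, g, hg1, hg2, hg3⟩ := t_desc (algebraicClosure ℚ ℂ).toSubfield n (d * e)
    {x : Fin (n + 1) → ℂ | (∀ j, x j ∈ (algebraicClosure ℚ ℂ).toSubfield) ∧
      eval x (pull m G) = 0} (fun x hx => hx.1) (pull m G)
    (pull_hom hg.mon he) (fun x hx => hx.2)
  obtain ⟨i, hi⟩ : ∃ i, aeval y (map (algebraMap (algebraicClosure ℚ ℂ).toSubfield ℂ) (g i)) ≠ 0 := by
    by_contra hcon
    push Not at hcon
    apply hGy
    rw [hg3, map_sum]
    exact Finset.sum_eq_zero fun i _ => by rw [map_mul, hcon i, mul_zero]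
  obtain ⟨g', hg'⟩ : ∃ g', g' = map (algebraMap (algebraicClosure ℚ ℂ).toSubfield ℂ) (g i) :=
    ⟨_, rfl⟩
  rw [← hg'] at hi
  have hgfin : FiniteOff (map (algebraMap k ℂ) '' (T : Set (MvPolynomial (Fin (n + 1)) k))) g' := by
    intro k' hk'
    refine (hP k' hk').subset ?_
    rintro P ⟨x, hx, h1, h2, h3, h4⟩
    refine ⟨x, hx, h1, h2, h3, fun h5 => h4 ?_⟩
    rw [hg']
    refine hg2 i x ⟨fun j => ?_, h5⟩
    have h6 : IsAlgebraic ℚ (x j) := by
      have h7 : IsAlgebraic ℚ (⟨x j, h2 j⟩ : k') := Algebra.IsAlgebraic.isAlgebraic _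
      exact (isAlgebraic_algebraMap_iff (algebraMap k' ℂ).injective).2 h7
    exact mem_algebraicClosure_iff.2 h6
  obtain ⟨G', hG', hG'y, hdvd⟩ := descent hy g' (e := d * e)
    (by rw [hg']; exact (hg1 i).map _) (fun α => by
      rw [hg', coeff_map]
      have h1 : IsAlgebraic ℚ ((coeff α (g i) : (algebraicClosure ℚ ℂ).toSubfield) : ℂ) :=
        mem_algebraicClosure_iff.1 (coeff α (g i)).2
      exact h1.tower_top k) hi
  refine ⟨G', hG', hG'y, ?_⟩
  intro k' hk'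
  refine (hgfin k' hk').subset ?_
  rintro P ⟨x, hx, h1, h2, h3, h4⟩
  refine ⟨x, hx, h1, h2, ?_, fun h5 => h4 ?_⟩
  · rintro _ ⟨p, hp, rfl⟩
    exact h3 _ ⟨p, hT hp, rfl⟩
  · obtain ⟨c, hc⟩ := hdvd
    rw [hc, map_mul, h5, zero_mul]

theorem sl_forw (hQ1 : SLang) {n : ℕ} (A : MvPolynomial (Fin (n + 1)) ℂ) : SLangY A := by
  rintro L _ _ w y hw hy hGT ⟨hc1, H, hH, hHy, hc2⟩
  have hgen : Gen L w y := ⟨hy.ne, hy.gen, hy.dim⟩
  -- the algebraic points are dense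
  have hdense : ∀ G, Fm G → (aeval y G = 0 ↔ ∀ x ∈ {x : Fin (n + 1) → ℂ |
      (∀ j, IsAlgebraic ℚ (x j)) ∧ ∀ p ∈ Eqs y, eval x p = 0}, eval x G = 0) := by
    intro G hG
    refine ⟨fun h x hx => hx.2 G ⟨hG, h⟩, fun h => ?_⟩
    have h3 : FiniteOff (Eqs y) G := by
      intro k' hk'
      refine Set.finite_empty.subset ?_
      rintro P ⟨x, hx, h1, h2, h3, h4⟩
      refine h4 (h x ⟨fun j => ?_, h3⟩)
      have h7 : IsAlgebraic ℚ (⟨x j, h2 j⟩ : k') := Algebra.IsAlgebraic.isAlgebraic _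
      exact (isAlgebraic_algebraMap_iff (algebraMap k' ℂ).injective).2 h7
    have h3 := t_restr.finite n {A} L y G H hG hH hc2 h3
    obtain ⟨e, he⟩ := hG
    obtain ⟨e', he'⟩ := id hH
    have h4 := hc1 (G * H) ⟨_, he.mul he'⟩ h3
    rw [map_mul, mul_eq_zero] at h4
    exact h4.resolve_right hHy
  obtain ⟨k, -, hk, S, hS1, hS2, hS3⟩ := numf n L w y hgen _ (fun x hx => hx.1) hdense ⊥
    inferInstance
  have hGP : GenericPoint (S : Set (MvPolynomial (Fin (n + 1)) k)) L w y := by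
    refine ⟨⟨hy.ne, fun p => hS2 _ p.2, hy.gen, hy.dim⟩, fun G hG hGy x hx => ?_⟩
    refine hS3 G hG hGy ℂ x fun p hp => ?_
    have h1 := hx p hp
    rw [aeval_def] at h1
    change eval x (map (algebraMap k ℂ) p) = 0
    rw [eval_map]
    exact h1
  obtain ⟨G, ⟨e, he⟩, hGy, hG⟩ := hQ1 k hk n S (fun p hp => hS1 p hp) L w y hw hGP hGT
  have hGf : IsForm (map (algebraMap k ℂ) G) := ⟨e, he.map _⟩
  have hon : FiniteOff (Eqs y) (map (algebraMap k ℂ) G) := by
    refine fo_mono (fun x hx => ?_) hG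
    rintro _ ⟨p, hp, rfl⟩
    obtain ⟨e', he'⟩ := hS1 p hp
    exact hx _ ⟨⟨e', he'.map (algebraMap k ℂ)⟩, hS2 p hp⟩
  have h3 := t_restr.finite n {A} L y _ H hGf hH hc2 hon
  obtain ⟨e', he'⟩ := id hH
  have h4 := hc1 _ ⟨_, (he.map _).mul he'⟩ h3
  rw [map_mul, mul_eq_zero] at h4
  rcases h4 with h4 | h4
  · exact hGy h4
  · exact hHy h4

end Run7.h972.LS
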